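import Pool.Agent.H89.NV.Defs
import Pool.Agent.H31.CN.T5

/-!
# Class group `L`-functions of the CM quadratic extensions of a totally real field at the central
point, on average: the interface statements of the parts

Part U: `T_UNF`, `T_PZ1`, `T_NFM`, `T_AUT`. Part E: `T_EPS` (and the input of part P, not listed).
Part P: `T_AVG`, `T_AFM`, `T_CNT`, `T_NFD`, `T_PUN`. Part L: `T_WDN`, `T_NEL`, `T_UFC`, `T_FMC`.
Part M: `T_SM2`, `T_FM1`, `T_CRR`. Part A: `T_PRO`, and the final theorem.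
-/

set_option autoImplicit false

open MeasureTheory Set Filter NumberField NumberField.InfinitePlace
open scoped Real

namespace Pool.Agent.H89.NV

open Pool.Agent.H65.CM4 Pool.Agent.H61.NVK
open Pool.Agent.H31.CN (GR E mo Mt)

section

variable (k : Type) [Field k] [NumberField k] [IsTotallyReal k]

/-! ### Part U -/

/-- (UNF) the unfolded second moment. -/
def T_UNF : Prop :=
  ∀ (f : Ideal (𝓞 k)) (D : 𝓞 k), f ≠ ⊥ → tp D → Dis f D →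
    ∀ (K : Type) [Field K] [Algebra k K] (h : CK D K) (S : Finset (Finset (PrI k)))
      (c : Finset (PrI k) → ℝ) (ι : Type) [Fintype ι] (A : ι → Ideal (𝓞 k)) (b : ι → 𝓞 k),
      (∀ i, A i ≠ ⊥ ∧ b i ∈ f ∧ b i ^ 2 + D ∈ ni k 4 * (A i * f ^ 2)) → Ineq h f A b →
      ∑ i, (Zc f S c (A i) (b i) D) ^ 2 ≤ 2 * ∑ m₁ ∈ S, ∑ m₂ ∈ S, c m₁ * c m₂ * Uf f m₁ m₂ D

/-- (PZ1) the mollified value of the principal form as a sum over roots. -/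
def T_PZ1 : Prop :=
  ∀ (f : Ideal (𝓞 k)) (D b : 𝓞 k) (S : Finset (Finset (PrI k))) (c : Finset (PrI k) → ℝ),
    f ≠ ⊥ → tp D → b ∈ f → b ^ 2 + D ∈ ni k 4 * f ^ 2 →
    Zc f S c ⊤ b D = ∑ m ∈ S, c m / Real.sqrt (nS m) *
      ∑ j ∈ rts f (idS m) ⊤ b (q4 (b ^ 2 + D)), zf (idS m) f (em (b + 2 * j)) (em D)

/-- (NFM) every lattice stable under the order is homothetic to the lattice of a form. -/
def T_NFM : Prop :=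
  ∀ (f : Ideal (𝓞 k)) (D b₀ : 𝓞 k), f ≠ ⊥ → tp D → b₀ ∈ f → b₀ ^ 2 + D ∈ ni k 4 * f ^ 2 →
    ∀ (K : Type) [Field K] [Algebra k K] (h : CK D K) (L : Submodule (𝓞 k) K), L.FG →
      (∃ x ∈ L, x ≠ 0) →
      (∀ x ∈ L, ∀ φ : k, (∀ y ∈ f, ∃ z : 𝓞 k, (z : k) = φ * y) →
        algebraMap k K φ * ((algebraMap (𝓞 k) K b₀ + h.s) / 2 * x) ∈ L) →
      ∃ (A : Ideal (𝓞 k)) (b : 𝓞 k) (I J : Ideal (𝓞 k)) (g : K), A ≠ ⊥ ∧ b ∈ f ∧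
        b ^ 2 + D ∈ ni k 4 * (A * f ^ 2) ∧ I ≠ ⊥ ∧ J ≠ ⊥ ∧ g ≠ 0 ∧
        hom J g L = hom I 1 (Lam h f A b)

/-- (AUT) for large discriminants the principal lattice has only trivial automorphisms. -/
def T_AUT : Prop :=
  ∀ (f : Ideal (𝓞 k)) (D b : 𝓞 k), f ≠ ⊥ → tp D → b ∈ f → b ^ 2 + D ∈ ni k 4 * f ^ 2 →
    2 ^ dg k < sd f (em D) → ∀ (K : Type) [Field K] [Algebra k K] (h : CK D K)
      (I J : Ideal (𝓞 k)) (g : K), I ≠ ⊥ → J ≠ ⊥ → g ≠ 0 →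
      hom J g (Lam h f ⊤ b) = hom I 1 (Lam h f ⊤ b) → h.im g = 0

/-! ### Part E -/

open Classical in
/-- (EPS) the Epstein zeta function of a form. -/
def T_EPS : Prop :=
  ∀ (A f : Ideal (𝓞 k)) (β d : Pl k → ℝ), f ≠ ⊥ → A ≠ ⊥ → (∀ v, 0 < d v) →
    (∀ (a : Ideal (𝓞 k)) (u : V2 k), a ≠ ⊥ → u ≠ 0 → 0 < nf a A f β d u) ∧
    ∃ F : ℂ → ℂ, DifferentiableOn ℂ F {1}ᶜ ∧
      (∀ s : ℂ, 1 < s.re → HasSum (fun p : ClassGroup (𝓞 k) × V2 k =>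
        if p.2 ∈ Lb (ci p.1) (A * f) ∧ p.2 ∈ Fo k then
          ((nf (ci p.1) A f β d p.2 : ℝ) : ℂ) ^ (-s) else 0) (F s)) ∧
      F (1 / 2) = ((zf A f β d : ℝ) : ℂ)

/-! ### Part P -/

/-- (AVG) the average of the unfolded second moment over the discriminant. -/
def T_AVG : Prop :=
  ∀ (f q : Ideal (𝓞 k)) (G : (Pl k → ℝ) → ℝ) (η : ℝ), f ≠ ⊥ → q ≠ ⊥ → GW η G →
  ∀ n K δ : ℝ, 1 ≤ n → 0 < δ → δ ≤ 1 / 100 →
    ∃ T₀ : ℝ, ∀ T : ℝ, T₀ ≤ T → ∀ (m₁ m₂ : Finset (PrI k)) (w : WW k), WD f q K w →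
      (∀ P ∈ m₁ ∪ m₂, ¬ P.1 ∣ q) →
      nS m₁ ≤ T ^ (dg k * (1 / 4 - δ)) → nS m₂ ≤ T ^ (dg k * (1 / 4 - δ)) →
      |(∑' D : 𝓞 k, G (fun v => em D v / T) *
        US f D (fun e A b c => wt f (n * nS m₁ * nS m₂) e A (em D) * w e A b c *
          Nw f m₁ m₂ e A b c) (fun A b _ => zf A f (em b) (em D))) -
        kf f / 2 ^ dg k * ∫ d : Pl k → ℝ, G (fun v => d v / T) * Mn f q n m₁ m₂ w d| ≤
        T ^ (-1 : ℝ)

/-- (AFM) the average for the first moment. -/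
def T_AFM : Prop :=
  ∀ (f q : Ideal (𝓞 k)) (G : (Pl k → ℝ) → ℝ) (η : ℝ), f ≠ ⊥ → q ≠ ⊥ → GW η G →
  ∀ K δ : ℝ, 0 < δ → δ ≤ 1 / 100 →
    ∃ T₀ : ℝ, ∀ T : ℝ, T₀ ≤ T → ∀ (A : Ideal (𝓞 k)) (w : WW k), WD f q K w → A ≠ ⊥ →
      nm A ≤ T ^ (dg k * (1 / 2 - δ)) →
      |(∑' D : 𝓞 k, G (fun v => em D v / T) *
        ∑ b ∈ bs f A D, w ⊤ A b (q4 (b ^ 2 + D)) * zf A f (em b) (em D)) -
        kf f / 2 ^ dg k * wbar f q w ⊤ A * ∫ d : Pl k → ℝ, G (fun v => d v / T) * ct A f d| ≤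
        T ^ (-(10 * dg k : ℝ))

open Classical in
/-- (CNT) sums of periodic functions over the discriminants: `g` is periodic modulo `q f ^ 2`. -/
def T_CNT : Prop :=
  ∀ (f q : Ideal (𝓞 k)) (G : (Pl k → ℝ) → ℝ) (η K ε : ℝ), f ≠ ⊥ → q ≠ ⊥ → GW η G → 0 < ε →
    ∃ T₀ : ℝ, ∀ T : ℝ, T₀ ≤ T → ∀ g : 𝓞 k → ℝ, (∀ x, |g x| ≤ K) →
      (∀ x, ∀ y ∈ q * f ^ 2, g (x + y) = g x) →
      |(∑' D : 𝓞 k, if D ∈ f ^ 2 then g D * G (fun v => em D v / T) else 0) -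
        kf f * T ^ dg k * (∫ u, G u) *
          ((∑ x ∈ (Rs (q * f ^ 2)).filter (fun x => x ∈ f ^ 2), g x) / nm q)| ≤ ε * T ^ dg k

open Classical in
/-- (NFD) few discriminants of the enlarged family are not fundamental. -/
def T_NFD : Prop :=
  ∀ (f : Ideal (𝓞 k)) (G : (Pl k → ℝ) → ℝ) (η ε : ℝ), f ≠ ⊥ → GW η G → 0 < ε →
    ∃ R₀ : ℝ, ∀ R : ℝ, R₀ ≤ R → ∀ T : ℝ, 1 ≤ T →
      ∑' D : 𝓞 k, (if good f (PM k R) D ∧ ¬ Fnd f D then |G (fun v => em D v / T)| else 0) ≤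
        ε * T ^ dg k

open Classical in
/-- (PUN) partition of unity for the squares of the units, and weights of the norm. -/
def T_PUN : Prop :=
  ∃ Ψ : (Pl k → ℝ) → ℝ, (∀ u, 0 ≤ Ψ u ∧ Ψ u ≤ 1) ∧
    (∀ u : Pl k → ℝ, (∀ v, 0 < u v) → (∃ s : Finset (𝓞 k), (∀ x : 𝓞 k, x ∈ s ↔
        (∃ ε : (𝓞 k)ˣ, x = (ε : 𝓞 k) ^ 2) ∧ Ψ (fun v => em x v * u v) ≠ 0) ∧
      ∑ x ∈ s, Ψ (fun v => em x v * u v) = 1) ∧
    (∀ (u : Pl k → ℝ) (t : ℝ), 0 < t → Ψ (fun v => t * u v) = Ψ u)) ∧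
    ∀ (w : ℝ → ℝ) (α : ℝ), 0 < α → ContDiff ℝ (⊤ : ℕ∞) w → (∀ x, x ∉ Icc α (1 / α) → w x = 0) →
      ∃ η : ℝ, GW (k := k) η (fun u => w (∏ v, u v) * Ψ u)

/-! ### Part L -/

/-- the set `R` is admissible -/
def RA (R : Finset (PrI k)) : Prop := ∀ P : PrI k, (2 : 𝓞 k) ∈ P.1 → P ∈ R

/-- (WDN) the weights at the small primes are admissible. -/
def T_WDN : Prop :=
  ∀ (f : Ideal (𝓞 k)) (R : Finset (PrI k)), f ≠ ⊥ → RA k R → ∃ K : ℝ,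
    ∀ n₁ n₂ : Finset (PrI k), n₁ ⊆ R → n₂ ⊆ R → WD f (qN R) K (wN f R n₁ n₂) ∧
      WD f (qN R) K (wF f R n₁)

open Classical in
/-- (NEL) the means of the weights at the small primes, second moment. -/
def T_NEL : Prop :=
  ∀ (f : Ideal (𝓞 k)) (R : Finset (PrI k)), f ≠ ⊥ → RA k R →
    ∃ (T : Finset (Ideal (𝓞 k) × Ideal (𝓞 k)))
      (F : Finset (PrI k) → Finset (PrI k) → Ideal (𝓞 k) × Ideal (𝓞 k) → ℝ),
    (∀ x ∈ T, x.1 ∣ idS R ^ 2 ∧ x.2 ∣ idS R ^ 2) ∧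
    (∀ (n₁ n₂ : Finset (PrI k)) (e A : Ideal (𝓞 k)), n₁ ⊆ R → n₂ ⊆ R → e ≠ ⊥ → A ≠ ⊥ →
      wbar f (qN R) (wN f R n₁ n₂) e A =
        ∑ x ∈ T, if x.1 ∣ A ∧ x.2 ∣ e then F n₁ n₂ x else 0) ∧
    ∑ n₁ ∈ R.powerset, ∑ n₂ ∈ R.powerset, ∑ x ∈ T, F n₁ n₂ x / (nm x.1 * nm x.2) =
      (∏ P ∈ R, (1 - 1 / np P)) ^ 3 * (2 ^ dg k * dR R)

/-- (UFC) the unfolded second moment with the coefficients `CD`. -/
def T_UFC : Prop :=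
  ∀ (P : Polynomial ℝ) (M : ℝ) (f : Ideal (𝓞 k)) (R : Finset (PrI k)) (b D : 𝓞 k), f ≠ ⊥ →
    RA k R → tp D → good f R D → b ∈ f → b ^ 2 + D ∈ ni k 4 * f ^ 2 →
    S2 P M f R b D = 2 * ∑ n₁ ∈ R.powerset, ∑ n₂ ∈ R.powerset, ∑ m₁ ∈ DM k M, ∑ m₂ ∈ DM k M,
      cm P M R m₁ * cm P M R m₂ *
        US f D (fun e A b c => wt f (nS n₁ * nS n₂ * nS m₁ * nS m₂) e A (em D) *
          wN f R n₁ n₂ e A b c * Nw f m₁ m₂ e A b c) (fun A b _ => zf A f (em b) (em D))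

/-- (FMC) the first moment: the means and the expansion. -/
def T_FMC : Prop :=
  ∀ (f : Ideal (𝓞 k)) (R : Finset (PrI k)), f ≠ ⊥ → RA k R →
    (∀ (n m : Finset (PrI k)), n ⊆ R → Disjoint m R →
      wbar f (qN R) (wF f R n) ⊤ (idS m * idS n) = wbar f (qN R) (wF f R n) ⊤ (idS n)) ∧
    ∑ n ∈ R.powerset, wbar f (qN R) (wF f R n) ⊤ (idS n) / nS n =
      (∏ P ∈ R, (1 - 1 / np P)) * (2 ^ dg k * dR R) ∧
    ∀ (P : Polynomial ℝ) (M : ℝ) (D : 𝓞 k), 1 ≤ M → tp D → good f R D →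
      Z1 P M f R (bD f D) D = ∑ n ∈ R.powerset, ∑ m ∈ DM k M,
        cm P M R m / Real.sqrt (nS m * nS n) * ∑ b ∈ bs f (idS m * idS n) D,
          wF f R n ⊤ (idS m * idS n) b (q4 (b ^ 2 + D)) *
            zf (idS m * idS n) f (em b) (em D)

/-! ### Part M -/

open Classical in
/-- the singular factor -/
noncomputable def Hq (q : Finset (PrI k)) : ℝ :=
  (1 / kp k ^ 2) * ∏' P : PrI k, if P ∈ q then (1 - 1 / np P)⁻¹ ^ 2 else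
      (1 - 2 / np P) * (1 - 1 / np P)⁻¹ ^ 2

open Classical in
/-- the singular constant -/
noncomputable def Sg (R : Finset (PrI k)) : ℝ :=
  kp k ^ 4 * Hq k R ^ 2 * ∏' P : PrI k, if P ∈ R then 1 - 1 / np P else
      (1 - 1 / np P) * (1 + 1 / np P * (1 - 1 / np P ^ 2) / (1 - 2 / np P) ^ 2)

open Classical in
/-- (SM2) the second moment over the enlarged family. -/
def T_SM2 : Prop :=
  ∀ (f : Ideal (𝓞 k)) (R : Finset (PrI k)) (G : (Pl k → ℝ) → ℝ) (η : ℝ), f ≠ ⊥ → RA k R →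
    GW η G → ∀ (P : Polynomial ℝ) (θ ε : ℝ), Polynomial.X ^ 5 ∣ P → 0 < θ → θ < 1 / 4 → 0 < ε →
    ∃ T₀ : ℝ, ∀ T : ℝ, T₀ ≤ T →
      |(∑' D : 𝓞 k, if good f R D then
        G (fun v => em D v / T) * S2 P (T ^ (dg k * θ)) f R (bD f D) D else 0) -
        T ^ dg k * kf f * (∫ u, G u) * (dR R * ((∏ P ∈ R, (1 - 1 / np P)) ^ 3 * Sg k R) *
          Mt P (1 / (2 * θ)))| ≤ ε * T ^ dg k

open Classical in
/-- (FM1) the first moment over the enlarged family. -/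
def T_FM1 : Prop :=
  ∀ (f : Ideal (𝓞 k)) (R : Finset (PrI k)) (G : (Pl k → ℝ) → ℝ) (η : ℝ), f ≠ ⊥ → RA k R →
    GW η G → ∀ (P : Polynomial ℝ) (θ ε : ℝ), Polynomial.X ^ 5 ∣ P → 0 < θ → θ < 1 / 4 → 0 < ε →
    ∃ T₀ : ℝ, ∀ T : ℝ, T₀ ≤ T →
      |(∑' D : 𝓞 k, if good f R D then
        G (fun v => em D v / T) * Z1 P (T ^ (dg k * θ)) f R (bD f D) D else 0) -
        T ^ dg k * kf f * (∫ u, G u) * (dR R *
          (P.eval 1 + 1 / (2 * θ) * P.derivative.eval 1))| ≤ ε * T ^ dg k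

/-- (CRR) the singular constant is close to one. -/
def T_CRR : Prop :=
  ∀ ε : ℝ, 0 < ε → ∃ R₀ : ℝ, ∀ R : ℝ, R₀ ≤ R → RA k (PM k R) ∧
    |(∏ P ∈ PM k R, (1 - 1 / np P)) ^ 3 * Sg k (PM k R) - 1| ≤ ε

/-! ### Part A -/

/-- the class group characters that are trivial on the ideals of `k` -/
def TrK (K : Type) [Field K] [NumberField K] [Algebra k K] (ψ : ClassGroup (𝓞 K) →* ℂˣ) : Prop :=
  ∀ (I : Ideal (𝓞 k)) (J : nonZeroDivisors (Ideal (𝓞 K))),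
    (J : Ideal (𝓞 K)) = I.map (algebraMap (𝓞 k) (𝓞 K)) → ψ (ClassGroup.mk0 J) = 1

/-- the proportion of these characters with non-zero central value -/
noncomputable def prp (K : Type) [Field K] [NumberField K] [Algebra k K] : ℝ :=
  (Nat.card {ψ : ClassGroup (𝓞 K) →* ℂˣ // TrK k K ψ ∧ Pool.Agent.H31.CN.NV K ψ} : ℝ) /
    Nat.card {ψ : ClassGroup (𝓞 K) →* ℂˣ // TrK k K ψ}

/-- (PRO) the proportion for one field. -/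
def T_PRO : Prop :=
  ∀ (f : Ideal (𝓞 k)) (D b : 𝓞 k) (K : Type) [Field K] [NumberField K] [Algebra k K]
    (_ : CK D K), f ≠ ⊥ → tp D → Fnd f D → b ∈ f → b ^ 2 + D ∈ ni k 4 * f ^ 2 →
    2 ^ dg k < sd f (em D) →
    0 ≤ prp k K ∧ prp k K ≤ 1 ∧ ∀ (S : Finset (Finset (PrI k))) (c : Finset (PrI k) → ℝ),
      (Zc f S c ⊤ b D) ^ 2 ≤
        prp k K * (2 * ∑ m₁ ∈ S, ∑ m₂ ∈ S, c m₁ * c m₂ * Uf f m₁ m₂ D)

end

end Pool.Agent.H89.NV
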