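import Pool.Agent.H61.NVK.Base
import Pool.Agent.H31.CN.GRing

/-!
# Class group `L`-functions of the CM quadratic extensions of a totally real field at the central
point, on average: definitions

`k` is a totally real number field of any class number. `f` is a nonzero ideal, `D ∈ f ^ 2` is
totally positive with `b ^ 2 + D ∈ 4 f ^ 2` for some `b ∈ f`; the order of `k (√-D)` in question is
`O + f⁻¹ (b + √-D) / 2`, of relative discriminant `D f⁻²`. A form is a triple `(A, b, c)`: `A` a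
nonzero integral ideal, `b ∈ f`, `c ∈ A f ^ 2`, `4 c - b ^ 2 = D`; the lattice of the form is
`A f + O (b + √-D) / 2`, its form is `x ^ 2 + b x y + c y ^ 2` for `x ∈ A f`, `y ∈ O`.
Squarefree ideals are given as finite sets of primes.
-/

set_option autoImplicit false

open MeasureTheory Set Filter NumberField NumberField.InfinitePlace
open scoped Real

namespace Pool.Agent.H89.NV

open Pool.Agent.H65.CM4 Pool.Agent.H61.NVK

section Base

variable {k : Type} [Field k] [NumberField k]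

/-! ### Arithmetic of `k` -/

variable (k) in
/-- the nonzero prime ideals -/
abbrev PrI : Type := {P : Ideal (𝓞 k) // P.IsPrime ∧ P ≠ ⊥}

/-- the norm of a prime -/
noncomputable def np (P : PrI k) : ℝ := nm P.1

/-- the norm of a finite set of primes -/
noncomputable def nS (S : Finset (PrI k)) : ℝ := ∏ P ∈ S, np P

/-- the product of a finite set of primes -/
noncomputable def idS (S : Finset (PrI k)) : Ideal (𝓞 k) := ∏ P ∈ S, P.1

variable (k) in
open Classical in
/-- the primes of norm at most `M` -/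
noncomputable def PM (M : ℝ) : Finset (PrI k) :=
  if h : {P : PrI k | np P ≤ M}.Finite then h.toFinset else ∅

variable (k) in
open Classical in
/-- the squarefree ideals of norm at most `M` -/
noncomputable def DM (M : ℝ) : Finset (Finset (PrI k)) :=
  (PM k M).powerset.filter (fun S => nS S ≤ M)

open Classical in
/-- a system of representatives modulo the nonzero ideal `I` -/
noncomputable def Rs (I : Ideal (𝓞 k)) : Finset (𝓞 k) :=
  if h : (Set.range (Function.surjInv (Ideal.Quotient.mk_surjective (I := I)))).Finite then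
    h.toFinset else ∅

/-- the ideal generated by a natural number -/
def ni (k : Type) [Field k] (m : ℕ) : Ideal (𝓞 k) := Ideal.span {(m : 𝓞 k)}

open Classical in
/-- the quotient by `4` -/
noncomputable def q4 (x : 𝓞 k) : 𝓞 k := if h : ∃ c : 𝓞 k, 4 * c = x then h.choose else 0

open Classical in
/-- the quotient of two ideals -/
noncomputable def dvi (A P : Ideal (𝓞 k)) : Ideal (𝓞 k) :=
  if h : ∃ J, A = P * J then h.choose else ⊥

open Classical in
/-- the middle coefficients -/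
noncomputable def bs (f A : Ideal (𝓞 k)) (D : 𝓞 k) : Finset (𝓞 k) :=
  (Rs (ni k 2 * (A * f))).filter (fun b => b ∈ f ∧ b ^ 2 + D ∈ ni k 4 * (A * f ^ 2))

/-- `D` is a discriminant relative to `f` -/
def Dis (f : Ideal (𝓞 k)) (D : 𝓞 k) : Prop := ∃ b ∈ f, b ^ 2 + D ∈ ni k 4 * f ^ 2

open Classical in
/-- a middle coefficient for the unit ideal -/
noncomputable def bD (f : Ideal (𝓞 k)) (D : 𝓞 k) : 𝓞 k := if h : Dis f D then h.choose else 0

/-- `D` is fundamental relative to `f` -/
def Fnd (f : Ideal (𝓞 k)) (D : 𝓞 k) : Prop := Dis f D ∧ ∀ P : PrI k, ¬ Dis (P.1 * f) D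

/-- the enlarged family -/
def good (f : Ideal (𝓞 k)) (R : Finset (PrI k)) (D : 𝓞 k) : Prop :=
  Dis f D ∧ ∀ P ∈ R, ¬ Dis (P.1 * f) D

open Classical in
/-- the roots: `j ∈ A f` modulo `I A f` with `j ^ 2 + b j + c ∈ I A f ^ 2` -/
noncomputable def rts (f I A : Ideal (𝓞 k)) (b c : 𝓞 k) : Finset (𝓞 k) :=
  (Rs (I * (A * f))).filter (fun j => j ∈ A * f ∧ j ^ 2 + b * j + c ∈ I * (A * f ^ 2))

/-- the number of roots -/
noncomputable def nr (f I A : Ideal (𝓞 k)) (b c : 𝓞 k) : ℕ := (rts f I A b c).card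

/-- the splitting of `P`: `1`, `-1` or `0` -/
noncomputable def chi (f : Ideal (𝓞 k)) (P : PrI k) (b c : 𝓞 k) : ℝ := (nr f P.1 ⊤ b c : ℝ) - 1

/-! ### Local weights -/

open Classical in
/-- local weight, prime dividing one of the two ideals -/
noncomputable def N1 (f P e A : Ideal (𝓞 k)) (b c : 𝓞 k) : ℕ :=
  (if P ∣ A then 1 else 0) + (if P ∣ e then nr f P A b c else 0)

open Classical in
/-- local weight, prime dividing both ideals -/
noncomputable def N2 (f P e A : Ideal (𝓞 k)) (b c : 𝓞 k) : ℕ :=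
  (if P ^ 2 ∣ A then 1 else 0) + (if P ∣ A ∧ P ∣ e then nr f P (dvi A P) b c else 0) +
    (if P ∣ e then nr f P A b c else 0) + (if P ^ 2 ∣ e then nr f (P ^ 2) A b c else 0)

open Classical in
/-- the weight of a pair of squarefree ideals -/
noncomputable def Nw (f : Ideal (𝓞 k)) (m₁ m₂ : Finset (PrI k)) (e A : Ideal (𝓞 k))
    (b c : 𝓞 k) : ℕ :=
  ∏ P ∈ m₁ ∪ m₂, if P ∈ m₁ ∧ P ∈ m₂ then N2 f P.1 e A b c else N1 f P.1 e A b c

open Classical in
/-- the averaged local weight of a pair of squarefree ideals -/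
noncomputable def Nb (m₁ m₂ : Finset (PrI k)) (e A : Ideal (𝓞 k)) : ℝ :=
  ∏ P ∈ m₁ ∪ m₂,
    (if P ∈ m₁ ∧ P ∈ m₂ then
      ((if P.1 ^ 2 ∣ A then 1 else 0) + (if P.1 ∣ A ∧ P.1 ∣ e then 2 - 1 / np P else 0) +
        (if P.1 ∣ e then 1 else 0) + (if P.1 ^ 2 ∣ e then 1 else 0) : ℝ)
    else ((if P.1 ∣ A then 1 else 0) + (if P.1 ∣ e then 1 else 0) : ℝ))

/-! ### Hecke operators on functions of forms and on weights -/

variable (k) in
/-- functions of forms `(A, b, c)` -/
abbrev FF : Type := Ideal (𝓞 k) → 𝓞 k → 𝓞 k → ℝ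

variable (k) in
/-- weights: functions of `(e, A, b, c)` -/
abbrev WW : Type := Ideal (𝓞 k) → Ideal (𝓞 k) → 𝓞 k → 𝓞 k → ℝ

open Classical in
/-- the Hecke operator at `P` on functions of forms -/
noncomputable def Tp (f P : Ideal (𝓞 k)) (F : FF k) : FF k := fun A b c =>
  (if P ∣ A then F (dvi A P) b c else 0) +
    ∑ j ∈ rts f P A b c, F (P * A) (b + 2 * j) (j ^ 2 + b * j + c)

open Classical in
/-- the Hecke operator at `P` on weights -/
noncomputable def Wp (f P : Ideal (𝓞 k)) (ω : WW k) : WW k := fun e A b c =>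
  (if P ∣ A then ω e (dvi A P) b c else 0) +
    (if P ∣ e then ∑ j ∈ rts f P A b c,
      ω (dvi e P) (P * A) (b + 2 * j) (j ^ 2 + b * j + c) else 0)

/-- the unfolded sum of a weight and a function of forms, discriminant `-D` -/
noncomputable def US (f : Ideal (𝓞 k)) (D : 𝓞 k) (ω : WW k) (F : FF k) : ℝ :=
  ∑' p : Ideal (𝓞 k) × Ideal (𝓞 k), ∑ b ∈ bs f p.2 D,
    ω p.1 p.2 b (q4 (b ^ 2 + D)) * F p.2 b (q4 (b ^ 2 + D))

/-! ### Weights periodic modulo `q` -/

/-- the data of a weight: periodic modulo `q` in the last two coefficients, invariant under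
the translation, bounded -/
structure WD (f q : Ideal (𝓞 k)) (K : ℝ) (w : WW k) : Prop where
  perB : ∀ e A b c, b ∈ f → c ∈ A * f ^ 2 → ∀ x ∈ q * f, w e A (b + x) c = w e A b c
  perC : ∀ e A b c, b ∈ f → c ∈ A * f ^ 2 → ∀ x ∈ q * (A * f ^ 2), w e A b (c + x) = w e A b c
  inv : ∀ e A b c, b ∈ f → c ∈ A * f ^ 2 → ∀ j ∈ A * f,
    w e A (b + 2 * j) (j ^ 2 + b * j + c) = w e A b c
  bd : ∀ e A b c, |w e A b c| ≤ K

open Classical in
/-- the mean of the weight -/
noncomputable def wbar (f q : Ideal (𝓞 k)) (w : WW k) (e A : Ideal (𝓞 k)) : ℝ :=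
  (1 / nm q ^ 2) * ∑ b ∈ (Rs (q * f)).filter (fun b => b ∈ f),
    ∑ c ∈ (Rs (q * (A * f ^ 2))).filter (fun c => c ∈ A * f ^ 2), w e A b c

open Classical in
/-- the coefficients at the small primes -/
noncomputable def an (f : Ideal (𝓞 k)) (R n : Finset (PrI k)) (b c : 𝓞 k) : ℝ :=
  ∏ P ∈ R, if P ∈ n then -1 else 1 + chi f P b c / np P

open Classical in
/-- the weight at the small primes, second moment -/
noncomputable def wN (f : Ideal (𝓞 k)) (R n₁ n₂ : Finset (PrI k)) : WW k := fun e A b c =>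
  if good f R (4 * c - b ^ 2) then an f R n₁ b c * an f R n₂ b c * Nw f n₁ n₂ e A b c else 0

open Classical in
/-- the weight at the small primes, first moment -/
noncomputable def wF (f : Ideal (𝓞 k)) (R n : Finset (PrI k)) : WW k := fun _ _ b c =>
  if good f R (4 * c - b ^ 2) then an f R n b c else 0

/-- the density of the enlarged family -/
noncomputable def dR (R : Finset (PrI k)) : ℝ := (1 / 2 ^ dg k) * ∏ P ∈ R, (1 - 1 / np P ^ 2)

/-- the modulus of the weights at the small primes -/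
noncomputable def qN (R : Finset (PrI k)) : Ideal (𝓞 k) := ni k 4 * idS R ^ 2

/-! ### The mollifier -/

open Classical in
/-- the mollifier coefficients -/
noncomputable def cm (P : Polynomial ℝ) (M : ℝ) (R m : Finset (PrI k)) : ℝ :=
  if nS m ≤ M ∧ Disjoint m R then
    (-1) ^ m.card * P.eval (Real.log (M / nS m) / Real.log M) else 0

open Classical in
/-- the mollifier coefficients with the exact inverse at the small primes -/
noncomputable def CD (P : Polynomial ℝ) (M : ℝ) (f : Ideal (𝓞 k)) (R : Finset (PrI k))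
    (b c : 𝓞 k) (m : Finset (PrI k)) : ℝ :=
  an f R (m ∩ R) b c * cm P M R (m \ R)

open Classical in
/-- the support of the coefficients -/
noncomputable def SD (M : ℝ) (R : Finset (PrI k)) : Finset (Finset (PrI k)) :=
  ((DM k M).filter (fun m => Disjoint m R) ×ˢ R.powerset).image (fun p => p.1 ∪ p.2)

/-! ### The group ring -/

open Pool.Agent.H31.CN (GR E lin)

/-- `al P = (N P)⁻¹ (shift in the first variable + shift in the second variable)` -/
noncomputable def al (P : PrI k) : GR :=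
  (1 / np P) • (E (Real.log (np P)) 0 + E 0 (Real.log (np P)))

/-- `et P = (N P)⁻¹ - (N P)⁻³ (shift of both variables)` -/
noncomputable def et (P : PrI k) : GR :=
  (1 / np P) • (1 : GR) - (1 / np P ^ 3) • E (Real.log (np P)) (Real.log (np P))

open Classical in
/-- the element of a pair of squarefree ideals -/
noncomputable def ka (m₁ m₂ : Finset (PrI k)) : GR :=
  ∏ P ∈ m₁ ∪ m₂, if P ∈ m₁ ∧ P ∈ m₂ then et P + al P ^ 2 else al P

/-- the first basic sum -/
noncomputable def S0 (k : Type) [Field k] [NumberField k] (Y : ℝ) : ℝ :=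
  ∑' x : Ideal (𝓞 k) × Ideal (𝓞 k), Vk k (nm (x.1 ^ 2 * x.2) * Real.exp (-Y)) / nm (x.1 * x.2)

/-- the second basic sum -/
noncomputable def S1 (k : Type) [Field k] [NumberField k] (Y : ℝ) : ℝ :=
  ∑' x : Ideal (𝓞 k) × Ideal (𝓞 k),
    Vk k (nm (x.1 ^ 2 * x.2) * Real.exp (-Y)) * Real.log (nm x.2) / nm (x.1 * x.2)

/-- the basic function of the two logarithmic variables -/
noncomputable def SS (k : Type) [Field k] [NumberField k] (u v : ℝ) : ℝ :=
  kp k * ((u + c0 k) * S0 k v - S1 k v)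

/-- the main term functional -/
noncomputable def Ph (k : Type) [Field k] [NumberField k] (l : ℝ) : GR →ₗ[ℝ] ℝ :=
  lin (fun v => SS k (l - v.1) (l - v.2))

end Base

section Real

variable {k : Type} [Field k] [NumberField k] [IsTotallyReal k]

/-- the embedding in the product of the real completions -/
noncomputable def em (x : 𝓞 k) : Pl k → ℝ := fun v => rv v (x : k)

/-- totally positive -/
def tp (D : 𝓞 k) : Prop := ∀ v : Pl k, 0 < rv v (D : k)

/-- the square root of the norm of the relative discriminant -/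
noncomputable def sd (f : Ideal (𝓞 k)) (d : Pl k → ℝ) : ℝ := sD d / nm f

open Classical in
/-- the number of the isotropic lines modulo `P` that contain `u` -/
noncomputable def nuP (f P a A : Ideal (𝓞 k)) (b c : 𝓞 k) (u : V2 k) : ℕ :=
  (if P ∣ A ∧ u.2 ∈ P * a then 1 else 0) +
    ((rts f P A b c).filter (fun j => u.1 - j * u.2 ∈ P * (a * (A * f)))).card

/-- the product over the primes in `m` -/
noncomputable def nu (f : Ideal (𝓞 k)) (m : Finset (PrI k)) (a A : Ideal (𝓞 k)) (b c : 𝓞 k)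
    (u : V2 k) : ℕ :=
  ∏ P ∈ m, nuP f P.1 a A b c u

open Classical in
/-- the mollified central value of a form -/
noncomputable def Zc (f : Ideal (𝓞 k)) (S : Finset (Finset (PrI k))) (c : Finset (PrI k) → ℝ)
    (A : Ideal (𝓞 k)) (b D : 𝓞 k) : ℝ :=
  ∑ a : ClassGroup (𝓞 k), ∑' u : V2 k, if u ∈ Lb (ci a) (A * f) ∧ u ∈ Fo k then
    (∑ m ∈ S, c m * (2 * Vk k (nf (ci a) A f (em b) (em D) u / (nS m * sd f (em D)))) *
      nu f m (ci a) A b (q4 (b ^ 2 + D)) u) /
      Real.sqrt (nf (ci a) A f (em b) (em D) u) else 0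

/-- the cut-off weight of the unfolded sum -/
noncomputable def wt (f : Ideal (𝓞 k)) (n : ℝ) (e A : Ideal (𝓞 k)) (d : Pl k → ℝ) : ℝ :=
  Vk k (nm (e ^ 2 * A) / (n * sd f d)) / Real.sqrt (nm (e ^ 2 * A))

/-- the unfolded second moment -/
noncomputable def Uf (f : Ideal (𝓞 k)) (m₁ m₂ : Finset (PrI k)) (D : 𝓞 k) : ℝ :=
  US f D (fun e A b c => wt f (nS m₁ * nS m₂) e A (em D) * Nw f m₁ m₂ e A b c)
    (fun A b _ => zf A f (em b) (em D))

/-- admissible weight functions on the positive cone -/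
structure GW (η : ℝ) (G : (Pl k → ℝ) → ℝ) : Prop where
  pos : 0 < η
  smooth : ContDiff ℝ (⊤ : ℕ∞) G
  supp : ∀ u, (∃ v, u v ∉ Icc η (1 / η)) → G u = 0

/-- the constant of the lattice sums -/
noncomputable def kf (f : Ideal (𝓞 k)) : ℝ := 1 / (Real.sqrt (dk k) * nm f ^ 2)

/-- the main term for fixed discriminant -/
noncomputable def Mn (f q : Ideal (𝓞 k)) (n : ℝ) (m₁ m₂ : Finset (PrI k)) (w : WW k)
    (d : Pl k → ℝ) : ℝ :=
  ∑' x : Ideal (𝓞 k) × Ideal (𝓞 k), wt f (n * nS m₁ * nS m₂) x.1 x.2 d * wbar f q w x.1 x.2 *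
    Nb m₁ m₂ x.1 x.2 * ct x.2 f d

/-- the mollified second moment of the discriminant `-D` (`b ∈ f`, `b ^ 2 + D ∈ 4 f ^ 2`) -/
noncomputable def S2 (P : Polynomial ℝ) (M : ℝ) (f : Ideal (𝓞 k)) (R : Finset (PrI k))
    (b D : 𝓞 k) : ℝ :=
  2 * ∑ m₁ ∈ SD M R, ∑ m₂ ∈ SD M R, CD P M f R b (q4 (b ^ 2 + D)) m₁ *
    CD P M f R b (q4 (b ^ 2 + D)) m₂ * Uf f m₁ m₂ D

/-- the mollified value of the principal form -/
noncomputable def Z1 (P : Polynomial ℝ) (M : ℝ) (f : Ideal (𝓞 k)) (R : Finset (PrI k))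
    (b D : 𝓞 k) : ℝ :=
  Zc f (SD M R) (CD P M f R b (q4 (b ^ 2 + D))) ⊤ b D

/-! ### Lattices in a quadratic extension -/

/-- coordinates of a quadratic extension `K = k (√-D)` -/
structure CK (D : 𝓞 k) (K : Type) [Field K] [Algebra k K] where
  s : K
  re : K →ₗ[k] k
  im : K →ₗ[k] k
  sq : s * s = -algebraMap k K (D : k)
  re1 : re 1 = 1
  im1 : im 1 = 0
  res : re s = 0
  ims : im s = 1
  eq : ∀ x, x = algebraMap k K (re x) + algebraMap k K (im x) * s

/-- the lattice of the form `(A, b)` -/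
noncomputable def Lam {D : 𝓞 k} {K : Type} [Field K] [Algebra k K] (h : CK D K)
    (f A : Ideal (𝓞 k)) (b : 𝓞 k) : Submodule (𝓞 k) K :=
  Submodule.map (Algebra.linearMap (𝓞 k) K) (A * f) ⊔
    Submodule.span (𝓞 k) {(algebraMap (𝓞 k) K b + h.s) / 2}

/-- the homothetic lattice -/
noncomputable def hom {K : Type} [Field K] [Algebra k K] (J : Ideal (𝓞 k)) (g : K)
    (L : Submodule (𝓞 k) K) : Submodule (𝓞 k) K :=
  J • L.map (LinearMap.mulLeft (𝓞 k) g)

/-- the forms `(A i, b i)` are pairwise inequivalent and have only trivial automorphisms -/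
def Ineq {D : 𝓞 k} {K : Type} [Field K] [Algebra k K] (h : CK D K) (f : Ideal (𝓞 k)) {ι : Type}
    (A : ι → Ideal (𝓞 k)) (b : ι → 𝓞 k) : Prop :=
  ∀ (i j : ι) (I J : Ideal (𝓞 k)) (g : K), I ≠ ⊥ → J ≠ ⊥ → g ≠ 0 →
    hom J g (Lam h f (A i) (b i)) = hom I 1 (Lam h f (A j) (b j)) → i = j ∧ h.im g = 0

end Real

end Pool.Agent.H89.NV
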