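import Pool.Agent.H89.NV.Iface

/-!
# Targets of part U: the unfolded second moment
-/

set_option autoImplicit false

open MeasureTheory Set Filter NumberField NumberField.InfinitePlace
open scoped Real

namespace Pool.Agent.H89.NV

open Pool.Agent.H65.CM4 Pool.Agent.H61.NVK

/-! ### Definitions of the part -/

section Defs

variable {k : Type} [Field k] [NumberField k]

/-- the form `(A, b, (b ^ 2 + D) / 4)` is valid -/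
structure Fm (f : Ideal (𝓞 k)) (D : 𝓞 k) (A : Ideal (𝓞 k)) (b : 𝓞 k) : Prop where
  ne : A ≠ ⊥
  mem : b ∈ f
  dis : b ^ 2 + D ∈ ni k 4 * (A * f ^ 2)

/-- the Hecke operator of a list of primes -/
noncomputable def TL (f : Ideal (𝓞 k)) (l : List (PrI k)) (F : FF k) : FF k :=
  l.foldr (fun P G => Tp f P.1 G) F

/-- the functions of forms which are invariant and of moderate growth, discriminant `-D` -/
structure FI (f : Ideal (𝓞 k)) (D : 𝓞 k) (F : FF k) : Prop where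
  inv : ∀ A b, Fm f D A b → ∀ j ∈ A * f,
    F A (b + 2 * j) (q4 ((b + 2 * j) ^ 2 + D)) = F A b (q4 (b ^ 2 + D))
  bd : ∃ (C : ℝ) (j : ℕ), 0 ≤ C ∧ ∀ A b, Fm f D A b → |F A b (q4 (b ^ 2 + D))| ≤ C * nm A ^ j

/-- the weights which are invariant and of rapid decay, discriminant `-D` -/
structure WI (f : Ideal (𝓞 k)) (D : 𝓞 k) (ω : WW k) : Prop where
  zero : ∀ A b c, ω ⊥ A b c = 0
  inv : ∀ e A b, e ≠ ⊥ → Fm f D A b → ∀ j ∈ A * f,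
    ω e A (b + 2 * j) (q4 ((b + 2 * j) ^ 2 + D)) = ω e A b (q4 (b ^ 2 + D))
  bd : ∀ B : ℕ, ∃ C : ℝ, 0 ≤ C ∧ ∀ e A b, e ≠ ⊥ → Fm f D A b →
    |ω e A b (q4 (b ^ 2 + D))| ≤ C / nm (e ^ 2 * A) ^ B

variable [IsTotallyReal k] {D : 𝓞 k} {K : Type} [Field K] [Algebra k K]

/-- the vector `u` as an element of `K` -/
noncomputable def zz (h : CK D K) (b : 𝓞 k) (u : V2 k) : K :=
  algebraMap (𝓞 k) K u.1 +
    algebraMap (𝓞 k) K u.2 * ((algebraMap (𝓞 k) K b + h.s) / 2)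

/-- the norm from `K` to `k` -/
noncomputable def nk (h : CK D K) (z : K) : k := h.re z ^ 2 + D * h.im z ^ 2

/-- the lattices stable under the order -/
def Stb (h : CK D K) (f : Ideal (𝓞 k)) (b₀ : 𝓞 k) (L : Submodule (𝓞 k) K) : Prop :=
  ∀ x ∈ L, ∀ φ : k, (∀ y ∈ f, ∃ z : 𝓞 k, (z : k) = φ * y) →
    algebraMap k K φ * ((algebraMap (𝓞 k) K b₀ + h.s) / 2 * x) ∈ L

variable (k) in
/-- functions of the vectors of the lattices `a (A f + O w)`: `w a A b u` -/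
abbrev VV : Type := Ideal (𝓞 k) → Ideal (𝓞 k) → 𝓞 k → V2 k → ℝ

open Classical in
/-- the sum over the vectors modulo the units, all classes of `k` together -/
noncomputable def Vs (f : Ideal (𝓞 k)) (w : VV k) (A : Ideal (𝓞 k)) (b : 𝓞 k) : ℝ :=
  ∑ a : ClassGroup (𝓞 k), ∑' u : V2 k, if u ∈ Lb (ci a) (A * f) ∧ u ∈ Fo k then
    w (ci a) A b u else 0

/-- functions of vectors which are invariant under homotheties, of rapid decay -/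
structure VF (h : CK D K) (f : Ideal (𝓞 k)) (w : VV k) : Prop where
  inv : ∀ (a a' A A' : Ideal (𝓞 k)) (b b' : 𝓞 k) (g : K) (u u' : V2 k), a ≠ ⊥ → a' ≠ ⊥ →
    Fm f D A b → Fm f D A' b' → g ≠ 0 → u ≠ 0 →
    hom a g (Lam h f A b) = hom a' 1 (Lam h f A' b') → u ∈ Lb a (A * f) → u' ∈ Lb a' (A' * f) →
    g * zz h b u = zz h b' u' → w a A b u = w a' A' b' u'
  bd : ∀ B : ℕ, ∃ C : ℝ, 0 ≤ C ∧ ∀ (a A : Ideal (𝓞 k)) (b : 𝓞 k) (u : V2 k), a ≠ ⊥ →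
    Fm f D A b → u ∈ Lb a (A * f) → u ≠ 0 →
    |w a A b u| ≤ C / nf a A f (em b) (em D) u ^ B

end Defs

section

variable (k : Type) [Field k] [NumberField k] [IsTotallyReal k]

/-! ### Representatives, ideals -/

/-- (RSB) systems of representatives. -/
def T_RSB : Prop :=
  (∀ I : Ideal (𝓞 k), I ≠ ⊥ → (∀ x, ∃! r, r ∈ Rs I ∧ x - r ∈ I) ∧
    (Rs I).card = Ideal.absNorm I) ∧ Rs (⊥ : Ideal (𝓞 k)) = ∅ ∧
  (∀ (I : Ideal (𝓞 k)) (s t : Finset (𝓞 k)) (g : 𝓞 k → ℝ),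
    (∀ x ∈ s, ∃! y, y ∈ t ∧ x - y ∈ I) → (∀ y ∈ t, ∃! x, x ∈ s ∧ x - y ∈ I) →
    (∀ x, ∀ y ∈ I, g (x + y) = g x) → ∑ x ∈ s, g x = ∑ y ∈ t, g y)

/-- (IDL) ideals. -/
def T_IDL : Prop :=
  (∀ J : Ideal (𝓞 k), J ≠ ⊥ → ∃ (J' : Ideal (𝓞 k)) (t : 𝓞 k), J' ≠ ⊥ ∧ t ≠ 0 ∧
    J * J' = Ideal.span {t}) ∧
  (∀ A P : Ideal (𝓞 k), A ≠ ⊥ → P ∣ A → P * dvi A P = A ∧ dvi A P ≠ ⊥ ∧
    nm A = nm P * nm (dvi A P)) ∧
  (∀ P A : Ideal (𝓞 k), P ≠ ⊥ → dvi (P * A) P = A) ∧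
  (∀ I J : Ideal (𝓞 k), nm (I * J) = nm I * nm J) ∧
  (∀ I : Ideal (𝓞 k), I ≠ ⊥ → 1 ≤ nm I) ∧ (∀ P : PrI k, 2 ≤ np P) ∧
  (∀ (K : Type) [Field K] [Algebra k K] (J : Ideal (𝓞 k)) (L L' : Submodule (𝓞 k) K), J ≠ ⊥ →
    J • L = J • L' → L = L')

/-- (BMD) the middle coefficients are congruent modulo `2 f`. -/
def T_BMD : Prop :=
  ∀ (f : Ideal (𝓞 k)) (D b b' : 𝓞 k), f ≠ ⊥ → b ∈ f → b' ∈ f → b ^ 2 + D ∈ ni k 4 * f ^ 2 →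
    b' ^ 2 + D ∈ ni k 4 * f ^ 2 → b - b' ∈ ni k 2 * f

/-- (TRV) translations. -/
def T_TRV : Prop :=
  ∀ (f A : Ideal (𝓞 k)) (D b : 𝓞 k), f ≠ ⊥ → Fm f D A b →
    4 * q4 (b ^ 2 + D) = b ^ 2 + D ∧ q4 (b ^ 2 + D) ∈ A * f ^ 2 ∧ Fm f D ⊤ b ∧
    (∀ j ∈ A * f, Fm f D A (b + 2 * j) ∧
      q4 ((b + 2 * j) ^ 2 + D) = j ^ 2 + b * j + q4 (b ^ 2 + D) ∧
      ∀ (I : Ideal (𝓞 k)) (g : 𝓞 k → ℝ), I ≠ ⊥ →
        (∀ x, ∀ y ∈ I * (A * f), g (x + y) = g x) →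
        ∑ i ∈ rts f I A (b + 2 * j) (q4 ((b + 2 * j) ^ 2 + D)), g i =
          ∑ i ∈ rts f I A b (q4 (b ^ 2 + D)), g (i - j)) ∧
    (∀ (I : Ideal (𝓞 k)) (j : 𝓞 k), I ≠ ⊥ → j ∈ rts f I A b (q4 (b ^ 2 + D)) →
      Fm f D (I * A) (b + 2 * j) ∧
      q4 ((b + 2 * j) ^ 2 + D) = j ^ 2 + b * j + q4 (b ^ 2 + D)) ∧
    (∀ P : Ideal (𝓞 k), P ∣ A → Fm f D (dvi A P) b)

/-- (FIB) the middle coefficients for a product. -/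
def T_FIB : Prop :=
  ∀ (f P A : Ideal (𝓞 k)) (D : 𝓞 k) (G : 𝓞 k → ℝ), f ≠ ⊥ → P ≠ ⊥ → A ≠ ⊥ →
    (∀ b, ∀ x ∈ ni k 2 * (P * A * f), G (b + x) = G b) →
    ∑ b ∈ bs f (P * A) D, G b =
      ∑ b ∈ bs f A D, ∑ j ∈ rts f P A b (q4 (b ^ 2 + D)), G (b + 2 * j)

/-! ### Hecke operators -/

/-- (ADJ) the Hecke operator can be moved to the weight. -/
def T_ADJ : Prop :=
  ∀ (f : Ideal (𝓞 k)) (D : 𝓞 k) (P : PrI k) (ω : WW k) (F : FF k), f ≠ ⊥ → WI f D ω → FI f D F →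
    US f D (Wp f P.1 ω) F = US f D ω (Tp f P.1 F)

/-- (TPB) the Hecke operators preserve invariance and bounds. -/
def T_TPB : Prop :=
  ∀ (f : Ideal (𝓞 k)) (D : 𝓞 k) (P : PrI k), f ≠ ⊥ →
    (∀ F : FF k, FI f D F → FI f D (Tp f P.1 F)) ∧
    (∀ ω : WW k, WI f D ω → WI f D (Wp f P.1 ω)) ∧
    (∀ (ω ω' : WW k) (F : FF k), WI f D ω → WI f D ω' → FI f D F →
      US f D (fun e A b c => ω e A b c + ω' e A b c) F = US f D ω F + US f D ω' F) ∧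
    ∀ (ω : WW k) (F F' : FF k), WI f D ω → FI f D F → FI f D F' →
      US f D ω (fun A b c => F A b c + F' A b c) = US f D ω F + US f D ω F'

/-- (WC1) the local weights under the Hecke operator at another prime. -/
def T_WC1 : Prop :=
  ∀ (f : Ideal (𝓞 k)) (D : 𝓞 k) (P Q : PrI k) (e A : Ideal (𝓞 k)) (b : 𝓞 k), f ≠ ⊥ → P ≠ Q →
    e ≠ ⊥ → Fm f D A b →
    (P.1 ∣ A → N1 f Q.1 e (dvi A P.1) b (q4 (b ^ 2 + D)) = N1 f Q.1 e A b (q4 (b ^ 2 + D)) ∧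
      N2 f Q.1 e (dvi A P.1) b (q4 (b ^ 2 + D)) = N2 f Q.1 e A b (q4 (b ^ 2 + D))) ∧
    ∀ j ∈ rts f P.1 A b (q4 (b ^ 2 + D)), P.1 ∣ e →
      N1 f Q.1 (dvi e P.1) (P.1 * A) (b + 2 * j) (j ^ 2 + b * j + q4 (b ^ 2 + D)) =
        N1 f Q.1 e A b (q4 (b ^ 2 + D)) ∧
      N2 f Q.1 (dvi e P.1) (P.1 * A) (b + 2 * j) (j ^ 2 + b * j + q4 (b ^ 2 + D)) =
        N2 f Q.1 e A b (q4 (b ^ 2 + D))

open Classical in
/-- (WC2) the local weights under the Hecke operator at the same prime. -/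
def T_WC2 : Prop :=
  ∀ (f : Ideal (𝓞 k)) (D : 𝓞 k) (P : PrI k) (e A : Ideal (𝓞 k)) (b : 𝓞 k), f ≠ ⊥ → e ≠ ⊥ →
    Fm f D A b →
    (if P.1 ∣ A then N1 f P.1 e (dvi A P.1) b (q4 (b ^ 2 + D)) else 0) +
      (if P.1 ∣ e then ∑ j ∈ rts f P.1 A b (q4 (b ^ 2 + D)),
        N1 f P.1 (dvi e P.1) (P.1 * A) (b + 2 * j) (j ^ 2 + b * j + q4 (b ^ 2 + D)) else 0) =
      N2 f P.1 e A b (q4 (b ^ 2 + D))

open Classical in
/-- (WC) the weights of products of Hecke operators. -/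
def T_WC : Prop :=
  ∀ (f : Ideal (𝓞 k)) (D : 𝓞 k) (m₁ : Finset (PrI k)) (l : List (PrI k)) (h : ℝ → ℝ), f ≠ ⊥ →
    l.Nodup → ∀ (e A : Ideal (𝓞 k)) (b : 𝓞 k), e ≠ ⊥ → Fm f D A b →
    l.foldl (fun ω P => Wp f P.1 ω) (fun e A b c => if e = ⊥ then 0 else
        h (nm (e ^ 2 * A)) * ((∏ P ∈ m₁, N1 f P.1 e A b c : ℕ) : ℝ)) e A b (q4 (b ^ 2 + D)) =
      h (nm (e ^ 2 * A) / nS l.toFinset) * (Nw f m₁ l.toFinset e A b (q4 (b ^ 2 + D)) : ℝ)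

/-- (HKZ) the Hecke operators on sums over vectors. -/
def T_HKZ : Prop :=
  ∀ (f : Ideal (𝓞 k)) (D : 𝓞 k) (l : List (PrI k)) (φ : ℝ → ℝ), f ≠ ⊥ → tp D → l.Nodup →
    (∃ C : ℝ, ∀ t : ℝ, 0 < t → |φ t| ≤ C / t ^ 2) → ∀ (A : Ideal (𝓞 k)) (b : 𝓞 k), Fm f D A b →
    TL f l (fun A b _ => Vs f (fun a A b u => φ (nf a A f (em b) (em D) u)) A b) A b
        (q4 (b ^ 2 + D)) =
      Vs f (fun a A b u => φ (nf a A f (em b) (em D) u / nS l.toFinset) *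
        nu f l.toFinset a A b (q4 (b ^ 2 + D)) u) A b

/-- (GRW) growth: sums over vectors are bounded by a power of the norm of `A`. -/
def T_GRW : Prop :=
  ∀ (f : Ideal (𝓞 k)) (D : 𝓞 k), f ≠ ⊥ → tp D → ∃ (C : ℝ) (j : ℕ), 0 ≤ C ∧
    ∀ (A : Ideal (𝓞 k)) (b : 𝓞 k), Fm f D A b →
      (∀ a : ClassGroup (𝓞 k), Summable (fun u : {u : V2 k // u ∈ Lb (ci a) (A * f) ∧ u ∈ Fo k} =>
        1 / nf (ci a) A f (em b) (em D) u ^ 2)) ∧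
      Vs f (fun a A b u => 1 / nf a A f (em b) (em D) u ^ 2) A b ≤ C * nm A ^ j

/-! ### Lattices in `K` -/

/-- (CKB) the elements of `K`. -/
def T_CKB : Prop :=
  ∀ (D : 𝓞 k), tp D → ∀ (K : Type) [Field K] [Algebra k K] (h : CK D K),
    (∀ x y : K, nk h (x * y) = nk h x * nk h y) ∧
    (∀ x : K, x ≠ 0 → ∀ v : Pl k, 0 < rv v (nk h x)) ∧ nk h 0 = 0 ∧ nk h 1 = 1 ∧
    (∀ x : k, nk h (algebraMap k K x) = x ^ 2) ∧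
    (∀ x y : K, h.re x * h.im y - h.im x * h.re y = 0 → ∃ a b : k, (a ≠ 0 ∨ b ≠ 0) ∧
      algebraMap k K a * x = algebraMap k K b * y) ∧
    (∀ g x y : K, h.re (g * x) * h.im (g * y) - h.im (g * x) * h.re (g * y) =
      nk h g * (h.re x * h.im y - h.im x * h.re y)) ∧
    (∀ (f A : Ideal (𝓞 k)) (b : 𝓞 k), f ≠ ⊥ → Fm f D A b →
      (∀ u v : V2 k, zz h b (u + v) = zz h b u + zz h b v) ∧
      (∀ (c : 𝓞 k) (u : V2 k), zz h b (c • u) = algebraMap (𝓞 k) K c * zz h b u) ∧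
      (∀ u v : V2 k, zz h b u = zz h b v → u = v) ∧
      (∀ u : V2 k, nk h (zz h b u) =
        ((u.1 ^ 2 + b * u.1 * u.2 + q4 (b ^ 2 + D) * u.2 ^ 2 : 𝓞 k) : k)) ∧
      (∀ u v : V2 k, h.re (zz h b u) * h.im (zz h b v) - h.im (zz h b u) * h.re (zz h b v) =
        ((u.1 * v.2 - u.2 * v.1 : 𝓞 k) : k) / 2) ∧
      (∀ u : V2 k, qd (em b) (em D) u = ∏ v : Pl k, rv v (nk h (zz h b u))) ∧
      (∀ (j : 𝓞 k) (u : V2 k), zz h (b + 2 * j) (u.1 - j * u.2, u.2) = zz h b u))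

/-- (LMB) the vectors of the lattices. -/
def T_LMB : Prop :=
  ∀ (D : 𝓞 k), tp D → ∀ (K : Type) [Field K] [Algebra k K] (h : CK D K) (f a A : Ideal (𝓞 k))
    (b : 𝓞 k), f ≠ ⊥ → Fm f D A b →
    (∀ z : K, z ∈ hom a 1 (Lam h f A b) ↔ ∃ u ∈ Lb a (A * f), z = zz h b u) ∧
    (Lam h f A b).FG ∧ (∀ u ∈ Lb a (A * f), u ≠ 0 → a ≠ ⊥ → 1 ≤ nf a A f (em b) (em D) u)

/-- (STB) the lattices of the forms are stable. -/
def T_STB : Prop :=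
  ∀ (D : 𝓞 k), tp D → ∀ (K : Type) [Field K] [Algebra k K] (h : CK D K) (f : Ideal (𝓞 k))
    (b₀ : 𝓞 k), f ≠ ⊥ → Fm f D ⊤ b₀ → (∀ (A : Ideal (𝓞 k)) (b : 𝓞 k), Fm f D A b →
      Stb h f b₀ (Lam h f A b)) ∧
    ∀ (L : Submodule (𝓞 k) K) (J : Ideal (𝓞 k)) (g : K), (Stb h f b₀ L → Stb h f b₀ (hom J g L)) ∧
      (J ≠ ⊥ → g ≠ 0 → Stb h f b₀ (hom J g L) → Stb h f b₀ L)

/-- (PAR) the stable lattices that contain `1`. -/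
def T_PAR : Prop :=
  ∀ (D : 𝓞 k), tp D → ∀ (K : Type) [Field K] [Algebra k K] (h : CK D K) (f : Ideal (𝓞 k))
    (b₀ : 𝓞 k) (L : Submodule (𝓞 k) K), f ≠ ⊥ → Fm f D ⊤ b₀ → Stb h f b₀ L → L.FG → 1 ∈ L →
    ∃! x : Ideal (𝓞 k) × Ideal (𝓞 k) × 𝓞 k, x.1 ≠ ⊥ ∧ x.2.1 ≠ ⊥ ∧ x.2.2 ∈ bs f x.2.1 D ∧
      hom (x.1 * (x.2.1 * f)) 1 L = Lam h f x.2.1 x.2.2

/-- (IXN) homothetic lattices: the norms. -/
def T_IXN : Prop :=
  ∀ (D : 𝓞 k), tp D → ∀ (K : Type) [Field K] [Algebra k K] (h : CK D K)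
    (f a a' A A' : Ideal (𝓞 k)) (b b' : 𝓞 k) (g : K), f ≠ ⊥ → a ≠ ⊥ → a' ≠ ⊥ → Fm f D A b →
    Fm f D A' b' → g ≠ 0 → hom a g (Lam h f A b) = hom a' 1 (Lam h f A' b') →
    (∏ v : Pl k, rv v (nk h g)) * (nm a ^ 2 * nm A) = nm a' ^ 2 * nm A' ∧
    ∀ u u' : V2 k, g * zz h b u = zz h b' u' →
      nf a A f (em b) (em D) u = nf a' A' f (em b') (em D) u'

/-- (NUV) homothetic lattices: the local numbers. -/
def T_NUV : Prop :=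
  ∀ (D : 𝓞 k), tp D → ∀ (K : Type) [Field K] [Algebra k K] (h : CK D K)
    (f a a' A A' : Ideal (𝓞 k)) (b b' : 𝓞 k) (g : K), f ≠ ⊥ → a ≠ ⊥ → a' ≠ ⊥ → Fm f D A b →
    Fm f D A' b' → g ≠ 0 → hom a g (Lam h f A b) = hom a' 1 (Lam h f A' b') →
    ∀ (P : PrI k) (u u' : V2 k), u ∈ Lb a (A * f) → u' ∈ Lb a' (A' * f) →
      g * zz h b u = zz h b' u' →
      nuP f P.1 a A b (q4 (b ^ 2 + D)) u = nuP f P.1 a' A' b' (q4 (b' ^ 2 + D)) u'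

/-- (VSE) sums over vectors of homothetic lattices. -/
def T_VSE : Prop :=
  ∀ (D : 𝓞 k), tp D → ∀ (K : Type) [Field K] [Algebra k K] (h : CK D K) (f : Ideal (𝓞 k))
    (w : VV k), f ≠ ⊥ → VF h f w → ∀ (A A' I J : Ideal (𝓞 k)) (b b' : 𝓞 k) (g : K), Fm f D A b →
    Fm f D A' b' → I ≠ ⊥ → J ≠ ⊥ → g ≠ 0 →
    hom J g (Lam h f A b) = hom I 1 (Lam h f A' b') → Vs f w A b = Vs f w A' b'

/-- (ORB) unfolding over the classes of lattices. -/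
def T_ORB : Prop :=
  ∀ (D : 𝓞 k), tp D → ∀ (K : Type) [Field K] [Algebra k K] (h : CK D K) (f : Ideal (𝓞 k))
    (w : VV k) (ω : WW k), f ≠ ⊥ → Dis f D → VF h f w → (∀ A b c, ω ⊥ A b c = 0) →
    (∀ (e A c : Ideal (𝓞 k)) (b t : 𝓞 k), e ≠ ⊥ → Fm f D A b → t ≠ 0 →
      Ideal.span {t} = c * (e * (A * f)) → ω e A b (q4 (b ^ 2 + D)) = w c A b (t, 0)) →
    ∀ (ι : Type) [Fintype ι] (A : ι → Ideal (𝓞 k)) (b : ι → 𝓞 k), (∀ i, Fm f D (A i) (b i)) →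
      Ineq h f A b →
      ∑ i, (Vs f w (A i) (b i)) ^ 2 ≤ US f D ω (fun A b _ => Vs f w A b)

/-- (EXK) the field `K` exists. -/
def T_EXK : Prop :=
  ∀ D : 𝓞 k, tp D → ∃ (K : Type) (_ : Field K) (_ : Algebra k K), Nonempty (CK D K)

end

end Pool.Agent.H89.NV
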