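import Pool.Agent.H89.NV.TU

/-!
# Targets of part U, continued: auxiliary targets
-/

set_option autoImplicit false

open MeasureTheory Set Filter NumberField NumberField.InfinitePlace
open scoped Real

namespace Pool.Agent.H89.NV

open Pool.Agent.H65.CM4 Pool.Agent.H61.NVK

section

variable (k : Type) [Field k] [NumberField k] [IsTotallyReal k]

/-- (SMM) summability, and the number of middle coefficients. -/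
def T_SMM : Prop :=
  (∀ (x : Ideal (𝓞 k) × Ideal (𝓞 k) → ℝ) (j : ℕ), (∀ e A, e = ⊥ ∨ A = ⊥ → x (e, A) = 0) →
    (∀ B : ℕ, ∃ C : ℝ, ∀ e A, e ≠ ⊥ → A ≠ ⊥ → |x (e, A)| ≤ C * nm A ^ j / nm (e ^ 2 * A) ^ B) →
    Summable x) ∧
  ∃ C : ℝ, 0 ≤ C ∧ ∀ (f A : Ideal (𝓞 k)) (D : 𝓞 k), f ≠ ⊥ →
    ((bs f A D).card : ℝ) ≤ C * nm A * nm f ∧
    ∀ (P : Ideal (𝓞 k)) (b c : 𝓞 k), P ≠ ⊥ → A ≠ ⊥ → ((rts f P A b c).card : ℝ) ≤ nm P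

open Classical in
/-- (HK1) one Hecke operator on sums over vectors. -/
def T_HK1 : Prop :=
  ∀ (f : Ideal (𝓞 k)) (D : 𝓞 k) (P : PrI k) (H : VV k), f ≠ ⊥ → tp D →
    (∀ (a A : Ideal (𝓞 k)) (b t : 𝓞 k) (u : V2 k), t ≠ 0 → a ≠ ⊥ → Fm f D A b →
      u ∈ Lb a (A * f) → H (Ideal.span {t} * a) A b (t • u) = H a A b u) →
    (∃ C : ℝ, ∀ (a A : Ideal (𝓞 k)) (b : 𝓞 k) (u : V2 k), a ≠ ⊥ → Fm f D A b →
      u ∈ Lb a (A * f) → u ≠ 0 → |H a A b u| ≤ C / nf a A f (em b) (em D) u ^ 2) →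
    ∀ (A : Ideal (𝓞 k)) (b : 𝓞 k), Fm f D A b →
    Tp f P.1 (fun A b _ => Vs f H A b) A b (q4 (b ^ 2 + D)) =
      Vs f (fun a A b u => (if P.1 ∣ A ∧ u.2 ∈ P.1 * a then H (P.1 * a) (dvi A P.1) b u else 0) +
        ∑ j ∈ (rts f P.1 A b (q4 (b ^ 2 + D))).filter
          (fun j => u.1 - j * u.2 ∈ P.1 * (a * (A * f))),
          H a (P.1 * A) (b + 2 * j) (u.1 - j * u.2, u.2)) A b

/-- (HK2) the local numbers and the norms on the sublattices. -/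
def T_HK2 : Prop :=
  ∀ (f : Ideal (𝓞 k)) (D : 𝓞 k), f ≠ ⊥ → tp D → ∀ (a A : Ideal (𝓞 k)) (b : 𝓞 k) (u : V2 k),
    a ≠ ⊥ → Fm f D A b → u ∈ Lb a (A * f) →
    (∀ (Q : PrI k) (t : 𝓞 k), t ≠ 0 →
      nuP f Q.1 (Ideal.span {t} * a) A b (q4 (b ^ 2 + D)) (t • u) =
        nuP f Q.1 a A b (q4 (b ^ 2 + D)) u ∧
      nf (Ideal.span {t} * a) A f (em b) (em D) (t • u) = nf a A f (em b) (em D) u ∧
      (nuP f Q.1 a A b (q4 (b ^ 2 + D)) u : ℝ) ≤ np Q + 1) ∧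
    (∀ P : PrI k, P.1 ∣ A → u.2 ∈ P.1 * a →
      nf (P.1 * a) (dvi A P.1) f (em b) (em D) u = nf a A f (em b) (em D) u / np P ∧
      ∀ Q : PrI k, Q ≠ P →
        nuP f Q.1 (P.1 * a) (dvi A P.1) b (q4 (b ^ 2 + D)) u =
          nuP f Q.1 a A b (q4 (b ^ 2 + D)) u) ∧
    ∀ (P : PrI k) (j : 𝓞 k), j ∈ rts f P.1 A b (q4 (b ^ 2 + D)) →
      u.1 - j * u.2 ∈ P.1 * (a * (A * f)) →
      nf a (P.1 * A) f (em (b + 2 * j)) (em D) (u.1 - j * u.2, u.2) =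
        nf a A f (em b) (em D) u / np P ∧
      ∀ Q : PrI k, Q ≠ P →
        nuP f Q.1 a (P.1 * A) (b + 2 * j) (j ^ 2 + b * j + q4 (b ^ 2 + D))
          (u.1 - j * u.2, u.2) = nuP f Q.1 a A b (q4 (b ^ 2 + D)) u

/-- (NU1) the local numbers as numbers of lattices. -/
def T_NU1 : Prop :=
  ∀ (D : 𝓞 k), tp D → ∀ (K : Type) [Field K] [Algebra k K] (h : CK D K)
    (f a A : Ideal (𝓞 k)) (b b₀ : 𝓞 k) (P : PrI k) (u : V2 k), f ≠ ⊥ → a ≠ ⊥ → Fm f D A b →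
    Fm f D ⊤ b₀ → u ∈ Lb a (A * f) →
    nuP f P.1 a A b (q4 (b ^ 2 + D)) u =
      Nat.card {L : Submodule (𝓞 k) K // P.1 • hom a 1 (Lam h f A b) ≤ L ∧
        L ≤ hom a 1 (Lam h f A b) ∧ L ≠ hom a 1 (Lam h f A b) ∧
        L ≠ P.1 • hom a 1 (Lam h f A b) ∧ Stb h f b₀ L ∧ zz h b u ∈ L}

end

end Pool.Agent.H89.NV
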